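import Mathlib
import Pool.Agent.VM.StmtsW
import Pool.Agent.Helper69_Weyl.Basic

/-!
# CMP: completion of intervals
-/

set_option autoImplicit false

namespace Pool.Agent.VM.H4

open Pool.Agent.VM
open Pool.Agent.Helper69_Weyl (ee ee_add ee_int ee_zero ee_natCast_mul norm_ee sum_ee_div)
open Finset

/-- the weights -/
noncomputable def om (K l : ℕ) : ℝ :=
  if l = 0 then 1 else 1 / 2 * (((l : ℕ) : ℝ)⁻¹ + ((K - l : ℕ) : ℝ)⁻¹)

theorem om_nonneg (K l : ℕ) : 0 ≤ om K l := by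
  unfold om
  split_ifs <;> positivity

theorem sin_ge (x : ℝ) (h0 : 0 ≤ x) (h1 : x ≤ 1) :
    2 * min x (1 - x) ≤ Real.sin (Real.pi * x) := by
  have hpi := Real.pi_pos
  rcases le_total x (1 / 2) with h | h
  · have h2 := Real.mul_le_sin (x := Real.pi * x) (by positivity) (by nlinarith)
    have e : 2 / Real.pi * (Real.pi * x) = 2 * x := by field_simp
    rw [e] at h2
    have : min x (1 - x) ≤ x := min_le_left _ _
    linarith
  · have e1 : Real.sin (Real.pi * x) = Real.sin (Real.pi * (1 - x)) := by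
      rw [← Real.sin_pi_sub]
      congr 1
      ring
    have h2 := Real.mul_le_sin (x := Real.pi * (1 - x)) (by nlinarith) (by nlinarith)
    have e : 2 / Real.pi * (Real.pi * (1 - x)) = 2 * (1 - x) := by field_simp
    rw [e] at h2
    rw [e1]
    have : min x (1 - x) ≤ 1 - x := min_le_right _ _
    linarith

theorem norm_ee_neg_sub_one (x : ℝ) (h0 : 0 ≤ x) (h1 : x ≤ 1) :
    4 * min x (1 - x) ≤ ‖ee (-x) - 1‖ := by
  have e1 : ee (-x) = Complex.exp (Complex.I * ((-(2 * Real.pi * x) : ℝ) : ℂ)) := by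
    unfold ee
    congr 1
    push_cast
    ring
  rw [e1, Complex.norm_exp_I_mul_ofReal_sub_one]
  have e2 : -(2 * Real.pi * x) / 2 = -(Real.pi * x) := by ring
  rw [e2, Real.sin_neg, mul_neg, norm_neg, Real.norm_eq_abs]
  have := sin_ge x h0 h1
  calc 4 * min x (1 - x) = 2 * (2 * min x (1 - x)) := by ring
    _ ≤ 2 * Real.sin (Real.pi * x) := by linarith
    _ ≤ |2 * Real.sin (Real.pi * x)| := le_abs_self _

theorem norm_geom_le (z : ℂ) (hz : ‖z‖ = 1) (hz1 : z ≠ 1) (a b : ℕ) :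
    ‖∑ m ∈ Icc a b, z ^ m‖ ≤ 2 / ‖z - 1‖ := by
  have hne : ‖z - 1‖ ≠ 0 := by
    rw [norm_ne_zero_iff]
    exact sub_ne_zero.2 hz1
  have hpos : 0 < ‖z - 1‖ := lt_of_le_of_ne (norm_nonneg _) hne.symm
  rcases Nat.lt_or_ge b a with h | h
  · rw [Finset.Icc_eq_empty (by omega), Finset.sum_empty, norm_zero]
    positivity
  · have e0 : Icc a b = Ico a (b + 1) := by
      ext x
      simp only [Finset.mem_Icc, Finset.mem_Ico]
      omega
    have e1 : (∑ m ∈ Ico a (b + 1), z ^ m) * (z - 1) = z ^ (b + 1) - z ^ a :=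
      geom_sum_Ico_mul z (by omega)
    rw [e0, le_div_iff₀ hpos, ← norm_mul, e1]
    refine (norm_sub_le _ _).trans ?_
    rw [norm_pow, norm_pow, hz]
    norm_num

theorem kernel_le (K lo h l : ℕ) (hK : 1 ≤ K) (hlo : 1 ≤ lo) (hh : h ≤ K) (hl : l < K) :
    ‖∑ m ∈ Icc lo h, ee (-((l : ℝ) / K) * m)‖ ≤ K * om K l := by
  have hK0 : (0 : ℝ) < K := by exact_mod_cast hK
  unfold om
  split_ifs with h0
  · refine (norm_sum_le _ _).trans ?_
    simp only [norm_ee]
    rw [Finset.sum_const, nsmul_eq_mul, mul_one, mul_one, Nat.card_Icc]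
    exact_mod_cast (by omega : h + 1 - lo ≤ K)
  · set x : ℝ := (l : ℝ) / (K : ℝ) with hx
    have hl1 : (0 : ℝ) < (l : ℝ) := by
      have : 0 < l := Nat.pos_of_ne_zero h0
      exact_mod_cast this
    have hx0 : 0 < x := by positivity
    have hx1 : x < 1 := by
      rw [hx, div_lt_one hK0]
      exact_mod_cast hl
    have e1x : 1 - x = ((K - l : ℕ) : ℝ) / (K : ℝ) := by
      rw [hx]
      have : ((K - l : ℕ) : ℝ) = (K : ℝ) - (l : ℝ) := Nat.cast_sub hl.le
      rw [this, sub_div, div_self hK0.ne']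
    have hge := norm_ee_neg_sub_one x hx0.le hx1.le
    have hmin : 0 < min x (1 - x) := lt_min hx0 (by linarith)
    have hne : ee (-x) ≠ 1 := by
      intro h
      rw [h, sub_self, norm_zero] at hge
      linarith
    have e2 : ∀ m ∈ Icc lo h, ee (-x * m) = ee (-x) ^ m := by
      intro m _
      rw [← ee_natCast_mul]
      congr 1
      ring
    rw [Finset.sum_congr rfl e2]
    refine (norm_geom_le _ (norm_ee _) hne lo h).trans ?_
    calc 2 / ‖ee (-x) - 1‖ ≤ 2 / (4 * min x (1 - x)) :=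
          div_le_div_of_nonneg_left (by norm_num) (by positivity) hge
      _ = 1 / 2 * (min x (1 - x))⁻¹ := by
          field_simp
          norm_num
      _ ≤ 1 / 2 * (x⁻¹ + (1 - x)⁻¹) := by
          apply mul_le_mul_of_nonneg_left _ (by norm_num)
          have a1 : 0 < x⁻¹ := inv_pos.2 hx0
          have a2 : 0 < (1 - x)⁻¹ := inv_pos.2 (by linarith)
          rcases le_total x (1 - x) with h | h
          · rw [min_eq_left h]; linarith
          · rw [min_eq_right h]; linarith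
      _ = (K : ℝ) * (1 / 2 * (((l : ℕ) : ℝ)⁻¹ + ((K - l : ℕ) : ℝ)⁻¹)) := by
          rw [e1x, hx, inv_div, inv_div]
          ring

theorem sum_om (K : ℕ) (hK : 1 ≤ K) : ∑ l ∈ range K, om K l ≤ 2 + Real.log K := by
  obtain ⟨n, rfl⟩ : ∃ n, K = n + 1 := ⟨K - 1, by omega⟩
  rw [Finset.sum_range_succ']
  have e0 : om (n + 1) 0 = 1 := by simp [om]
  have e1 : ∀ j ∈ range n, om (n + 1) (j + 1) =
      1 / 2 * (((j + 1 : ℕ) : ℝ)⁻¹ + ((n - j : ℕ) : ℝ)⁻¹) := by
    intro j hj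
    unfold om
    rw [if_neg (by omega)]
    congr 4
    omega
  rw [e0, Finset.sum_congr rfl e1, ← Finset.mul_sum, Finset.sum_add_distrib]
  have hh : ((harmonic n : ℚ) : ℝ) = ∑ j ∈ range n, ((j + 1 : ℕ) : ℝ)⁻¹ := by
    unfold harmonic
    push_cast
    rfl
  have hr : ∑ j ∈ range n, ((n - j : ℕ) : ℝ)⁻¹ = ∑ j ∈ range n, ((j + 1 : ℕ) : ℝ)⁻¹ := by
    rw [← Finset.sum_range_reflect]
    apply Finset.sum_congr rfl
    intro j hj
    have := Finset.mem_range.1 hj
    congr 2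
    omega
  rw [hr, ← hh]
  have h3 := harmonic_le_one_add_log n
  have h4 : Real.log (n : ℝ) ≤ Real.log ((n + 1 : ℕ) : ℝ) := by
    rcases Nat.eq_zero_or_pos n with h | h
    · subst h
      simp
    · apply Real.log_le_log
      · exact_mod_cast h
      · push_cast; linarith
  linarith

theorem completion_identity (K lo h : ℕ) (c : ℕ → ℂ) (hK : 1 ≤ K) (hlo : 1 ≤ lo) (hh : h ≤ K) :
    (K : ℂ) * ∑ m ∈ Icc lo h, c m = ∑ l ∈ range K, (∑ m ∈ Icc lo h, ee (-((l : ℝ) / K) * m)) *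
      ∑ n ∈ Icc 1 K, c n * ee ((l : ℝ) * (n : ℝ) / (K : ℝ)) := by
  have e1 : ∀ l ∈ range K, (∑ m ∈ Icc lo h, ee (-((l : ℝ) / K) * m)) *
      ∑ n ∈ Icc 1 K, c n * ee ((l : ℝ) * (n : ℝ) / (K : ℝ)) = ∑ m ∈ Icc lo h, ∑ n ∈ Icc 1 K,
        c n * ee ((l : ℝ) / K * ((n : ℤ) - (m : ℤ) : ℤ)) := by
    intro l _
    rw [Finset.sum_mul_sum]
    apply Finset.sum_congr rfl
    intro m _
    apply Finset.sum_congr rfl
    intro n _
    rw [mul_left_comm, ← ee_add]
    congr 2
    push_cast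
    ring
  rw [Finset.sum_congr rfl e1, Finset.sum_comm, Finset.mul_sum]
  apply Finset.sum_congr rfl
  intro m hm
  have hm' := Finset.mem_Icc.1 hm
  rw [Finset.sum_comm]
  have e3 : ∀ n ∈ Icc 1 K, ∑ l ∈ range K, c n * ee ((l : ℝ) / K * ((n : ℤ) - (m : ℤ) : ℤ)) =
      if n = m then (K : ℂ) * c m else 0 := by
    intro n hn
    have hn' := Finset.mem_Icc.1 hn
    rw [← Finset.mul_sum, sum_ee_div K (by omega)]
    by_cases h : n = m
    · subst h
      simp
      ring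
    · have hnd : ¬ (K : ℤ) ∣ ((n : ℤ) - (m : ℤ)) := by
        intro hd
        have h5 : |((n : ℤ) - (m : ℤ))| < K := by
          rw [abs_lt]
          constructor <;> omega
        have := Int.eq_zero_of_abs_lt_dvd hd h5
        omega
      simp [hnd, h]
  rw [Finset.sum_congr rfl e3, Finset.sum_ite_eq', if_pos]
  rw [Finset.mem_Icc]
  omega

theorem cmp : CmpStmt := by
  refine ⟨om, om_nonneg, ?_, ?_⟩
  · intro ε hε
    refine ⟨2 + 1 / ε, by positivity, ?_⟩
    intro K hK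
    have hK1 : (1 : ℝ) ≤ K := by exact_mod_cast hK
    refine (sum_om K hK).trans ?_
    have h1 : (1 : ℝ) ≤ (K : ℝ) ^ ε := Real.one_le_rpow hK1 hε.le
    have h2 : Real.log (K : ℝ) ≤ (K : ℝ) ^ ε / ε := Real.log_le_rpow_div (by positivity) hε
    calc 2 + Real.log (K : ℝ) ≤ 2 * (K : ℝ) ^ ε + (K : ℝ) ^ ε / ε := by linarith
      _ = (2 + 1 / ε) * (K : ℝ) ^ ε := by ring
  · intro K lo h c hK hlo hh
    have hK0 : (0 : ℝ) < K := by exact_mod_cast hK
    have key := completion_identity K lo h c hK hlo hh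
    have h1 : (K : ℝ) * ‖∑ m ∈ Icc lo h, c m‖ ≤ (K : ℝ) * ∑ l ∈ range K, om K l *
        ‖∑ m ∈ Icc 1 K, c m * ee ((l : ℝ) * (m : ℝ) / (K : ℝ))‖ := by
      calc (K : ℝ) * ‖∑ m ∈ Icc lo h, c m‖ = ‖(K : ℂ) * ∑ m ∈ Icc lo h, c m‖ := by
            rw [norm_mul]; simp
        _ ≤ ∑ l ∈ range K, ‖(∑ m ∈ Icc lo h, ee (-((l : ℝ) / K) * m)) *
            ∑ n ∈ Icc 1 K, c n * ee ((l : ℝ) * (n : ℝ) / (K : ℝ))‖ := by
            rw [key]; exact norm_sum_le _ _
        _ ≤ ∑ l ∈ range K, (K * om K l) *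
            ‖∑ n ∈ Icc 1 K, c n * ee ((l : ℝ) * (n : ℝ) / (K : ℝ))‖ := by
            apply Finset.sum_le_sum
            intro l hl
            rw [norm_mul]
            exact mul_le_mul_of_nonneg_right (kernel_le K lo h l hK hlo hh (Finset.mem_range.1 hl))
              (norm_nonneg _)
        _ = (K : ℝ) * ∑ l ∈ range K, om K l *
            ‖∑ m ∈ Icc 1 K, c m * ee ((l : ℝ) * (m : ℝ) / (K : ℝ))‖ := by
            rw [Finset.mul_sum]
            exact Finset.sum_congr rfl fun l _ => by ring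
    exact le_of_mul_le_mul_left h1 hK0

end Pool.Agent.VM.H4
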