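import Mathlib
import Pool.Agent.VM.Stmts

/-!
# GPR, LGL, LDM
-/

set_option autoImplicit false

namespace Pool.Agent.VM.H4

open Pool.Agent.VM
open Pool.Agent.Helper69_Weyl (ee ee_add ee_int)

/-! ## the mean -/

theorem av_mono (q l : ℕ) (f g : (Fin l → ℤ) → ℝ) (h : ∀ ζ, f ζ ≤ g ζ) : Av q l f ≤ Av q l g := by
  unfold Av
  exact div_le_div_of_nonneg_right (Finset.sum_le_sum fun _ _ => h _) (by positivity)

theorem av_nonneg (q l : ℕ) (f : (Fin l → ℤ) → ℝ) (h : ∀ ζ, 0 ≤ f ζ) : 0 ≤ Av q l f := by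
  unfold Av
  exact div_nonneg (Finset.sum_nonneg fun _ _ => h _) (by positivity)

theorem av_mul_left (q l : ℕ) (c : ℝ) (f : (Fin l → ℤ) → ℝ) :
    Av q l (fun ζ => c * f ζ) = c * Av q l f := by
  unfold Av
  rw [← Finset.mul_sum]
  ring

theorem av_const (q l : ℕ) (hq : 0 < q) (c : ℝ) : Av q l (fun _ => c) = c := by
  unfold Av
  rw [Finset.sum_const, nsmul_eq_mul, Finset.card_univ, Fintype.card_fun, Fintype.card_fin,
    Fintype.card_fin]
  have h : ((q : ℝ)) ^ l ≠ 0 := by positivity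
  push_cast
  field_simp

theorem av_comm (q l q' l' : ℕ) (f : (Fin l → ℤ) → (Fin l' → ℤ) → ℝ) :
    Av q l (fun ζ => Av q' l' (fun ξ => f ζ ξ)) = Av q' l' (fun ξ => Av q l (fun ζ => f ζ ξ)) := by
  unfold Av
  rw [← Finset.sum_div, ← Finset.sum_div, Finset.sum_comm, div_div, div_div, mul_comm]

/-! ## GPR -/

theorem gpr : GprStmt := by
  intro q l E s w hq ζ v
  have hq' : (q : ℝ) ≠ 0 := by exact_mod_cast hq.ne'
  unfold G
  refine Finset.sum_congr rfl fun x _ => ?_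
  congr 1
  have e : (((∑ j, (ζ j + (q : ℤ) * v j) * E j x : ℤ) : ℝ) / (q : ℝ)) =
      ((∑ j, ζ j * E j x : ℤ) : ℝ) / (q : ℝ) + ((∑ j, v j * E j x : ℤ) : ℝ) := by
    have e1 : (∑ j, (ζ j + (q : ℤ) * v j) * E j x : ℤ) =
        (∑ j, ζ j * E j x : ℤ) + (q : ℤ) * (∑ j, v j * E j x : ℤ) := by
      rw [Finset.mul_sum, ← Finset.sum_add_distrib]
      exact Finset.sum_congr rfl fun j _ => by ring
    rw [e1]
    push_cast
    field_simp
  rw [e, ee_add, ee_int, mul_one]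

theorem per_norm_G (q l : ℕ) (E : Fin l → ℤ → ℤ) (s : Finset ℤ) (w : ℤ → ℂ) (hq : 0 < q) :
    Per q l (fun ζ => ‖G q E s w ζ‖) := by
  intro ζ v
  show ‖G q E s w (fun j => ζ j + (q : ℤ) * v j)‖ = ‖G q E s w ζ‖
  rw [gpr q l E s w hq ζ v]

/-! ## LGL -/

theorem shift_av (avt : AvtStmt) (q q' k l : ℕ) (F : (Fin k → ℤ) → ℝ)
    (φ : (Fin l → ℤ) → (Fin k → ℤ)) (hq : 0 < q) (hq' : 0 < q') (hF : Per q k F) :
    Av q k F = Av q k (fun α => Av q' l (fun ζ => F (fun j => α j + φ ζ j))) := by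
  rw [av_comm]
  have e : (fun ξ : Fin l → ℤ => Av q k (fun ζ => F (fun j => ζ j + φ ξ j))) =
      fun _ => Av q k F := by
    funext ξ
    exact avt q k F hq hF (φ ξ)
  rw [e, av_const q' l hq']

theorem lgl (avt : AvtStmt) (mnk : MnkStmt) : LglStmt := by
  intro q q' k l r C T g gj W φ hq hq' hr hC hW hg hgj hWp hinv hloc
  have hr0 : (r : ℝ) ≠ 0 := by
    have : 0 < r := hr
    exact_mod_cast this.ne'
  have key : ∀ f : (Fin k → ℤ) → ℂ, Per q k (fun α => ‖f α‖) →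
      Av q k (fun α => W α * ‖f α‖ ^ (2 * r)) =
        Av q k (fun α => W α * Av q' l (fun ζ => ‖f (fun j => α j + φ ζ j)‖ ^ (2 * r))) := by
    intro f hf
    have hper : Per q k (fun α => W α * ‖f α‖ ^ (2 * r)) := by
      intro ζ v
      have h1 := hWp ζ v
      have h2 := hf ζ v
      simp only at h2
      show W (fun j => ζ j + (q : ℤ) * v j) * ‖f (fun j => ζ j + (q : ℤ) * v j)‖ ^ (2 * r) =
        W ζ * ‖f ζ‖ ^ (2 * r)
      rw [h1, h2]
    rw [shift_av avt q q' k l _ φ hq hq' hper]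
    congr 1
    funext α
    rw [← av_mul_left]
    congr 1
    funext ζ
    rw [hinv]
  rw [key g hg]
  have hX0 : ∀ (i : ℕ) (α : Fin k → ℤ),
      0 ≤ W α * Av q' l (fun ζ => ‖gj i (fun j => α j + φ ζ j)‖ ^ (2 * r)) := by
    intro i α
    exact mul_nonneg (hW α) (av_nonneg _ _ _ fun _ => by positivity)
  have h1 : ∀ α : Fin k → ℤ, W α * Av q' l (fun ζ => ‖g (fun j => α j + φ ζ j)‖ ^ (2 * r)) ≤
      C * (∑ i ∈ T, (W α * Av q' l (fun ζ => ‖gj i (fun j => α j + φ ζ j)‖ ^ (2 * r))) ^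
        (1 / (r : ℝ))) ^ r := by
    intro α
    have e1 : ∀ i ∈ T, (W α * Av q' l (fun ζ => ‖gj i (fun j => α j + φ ζ j)‖ ^ (2 * r))) ^
        (1 / (r : ℝ)) = (W α) ^ (1 / (r : ℝ)) *
          (Av q' l (fun ζ => ‖gj i (fun j => α j + φ ζ j)‖ ^ (2 * r))) ^ (1 / (r : ℝ)) := by
      intro i _
      exact Real.mul_rpow (hW α) (av_nonneg _ _ _ fun _ => by positivity)
    rw [Finset.sum_congr rfl e1, ← Finset.mul_sum, mul_pow, ← Real.rpow_natCast
      ((W α) ^ (1 / (r : ℝ))) r, ← Real.rpow_mul (hW α), one_div_mul_cancel hr0, Real.rpow_one]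
    calc W α * Av q' l (fun ζ => ‖g (fun j => α j + φ ζ j)‖ ^ (2 * r))
        ≤ W α * (C * (∑ i ∈ T, (Av q' l (fun ζ => ‖gj i (fun j => α j + φ ζ j)‖ ^ (2 * r))) ^
        (1 / (r : ℝ))) ^ r) := mul_le_mul_of_nonneg_left (hloc α) (hW α)
      _ = _ := by ring
  have h2 := av_mono q k _ _ h1
  rw [av_mul_left] at h2
  refine h2.trans (mul_le_mul_of_nonneg_left ?_ hC)
  have h3 := mnk q k r T (fun i α => (W α *
    Av q' l (fun ζ => ‖gj i (fun j => α j + φ ζ j)‖ ^ (2 * r))) ^ (1 / (r : ℝ))) hq hr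
    (fun i α => Real.rpow_nonneg (hX0 i α) _)
  refine h3.trans (le_of_eq ?_)
  congr 1
  refine Finset.sum_congr rfl fun i _ => ?_
  congr 1
  rw [key (gj i) (hgj i)]
  congr 1
  funext α
  rw [← Real.rpow_natCast (_ ^ (1 / (r : ℝ))) r, ← Real.rpow_mul (hX0 i α),
    one_div_mul_cancel hr0, Real.rpow_one]

/-! ## LDM -/

theorem G_shift (p l M M' : ℕ) (E : Fin l → ℤ → ℤ) (s : Finset ℤ) (w : ℤ → ℂ) (hp : 0 < p)
    (hM : M ≤ M') (α ζ : Fin l → ℤ) :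
    G (p ^ M') E s w (fun j => α j + ((p : ℤ) ^ (M' - M)) * ζ j) =
      G (p ^ M) E s (fun x => w x * ee (((∑ j, α j * E j x : ℤ) : ℝ) / ((p ^ M' : ℕ) : ℝ))) ζ := by
  have hp' : (p : ℝ) ≠ 0 := by exact_mod_cast hp.ne'
  unfold G
  refine Finset.sum_congr rfl fun x _ => ?_
  rw [mul_assoc, ← ee_add]
  congr 2
  have e1 : (∑ j, (α j + (p : ℤ) ^ (M' - M) * ζ j) * E j x : ℤ) =
      (∑ j, α j * E j x : ℤ) + (p : ℤ) ^ (M' - M) * (∑ j, ζ j * E j x : ℤ) := by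
    rw [Finset.mul_sum, ← Finset.sum_add_distrib]
    exact Finset.sum_congr rfl fun j _ => by ring
  rw [e1]
  have e2 : ((p : ℝ)) ^ M' = (p : ℝ) ^ (M' - M) * (p : ℝ) ^ M := by
    rw [← pow_add]
    congr 1
    omega
  have h3 : ((p : ℝ)) ^ M ≠ 0 := pow_ne_zero _ hp'
  have h4 : ((p : ℝ)) ^ (M' - M) ≠ 0 := pow_ne_zero _ hp'
  push_cast
  rw [add_div, e2]
  congr 1
  field_simp

theorem ldm (lgl : LglStmt) (gpr : GprStmt) : LdmStmt := by
  intro p l r M M' m E C s hp hr hC hM hm hyp w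
  have hpM : 0 < p ^ M := Nat.pow_pos hp
  have hpM' : 0 < p ^ M' := Nat.pow_pos hp
  have hper : ∀ s' : Finset ℤ, Per (p ^ M') l (fun ζ => ‖G (p ^ M') E s' w ζ‖) := by
    intro s' ζ v
    show ‖G (p ^ M') E s' w (fun j => ζ j + ((p ^ M' : ℕ) : ℤ) * v j)‖ = ‖G (p ^ M') E s' w ζ‖
    rw [gpr (p ^ M') l E s' w hpM' ζ v]
  have h := lgl (p ^ M') (p ^ M) l l r C (Finset.range m) (fun α => G (p ^ M') E s w α)
    (fun i α => G (p ^ M') E (cl m (i : ℤ) s) w α) (fun _ => 1)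
    (fun ζ j => ((p : ℤ) ^ (M' - M)) * ζ j) hpM' hpM hr hC (fun _ => zero_le_one) (hper s)
    (fun i => hper _) (fun _ _ => rfl) (fun _ _ => rfl) ?_
  · have e1 : ∀ s' : Finset ℤ, Av (p ^ M') l (fun α => 1 * ‖G (p ^ M') E s' w α‖ ^ (2 * r)) =
        mom (p ^ M') E r s' w := by
      intro s'
      unfold mom
      congr 1
      funext α
      rw [one_mul]
    simp only [e1] at h
    exact h
  · intro α
    have h5 := hyp (fun x => w x * ee (((∑ j, α j * E j x : ℤ) : ℝ) / ((p ^ M' : ℕ) : ℝ)))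
    have e2 : ∀ s' : Finset ℤ, Av (p ^ M) l (fun ζ => ‖G (p ^ M') E s' w
        (fun j => α j + ((p : ℤ) ^ (M' - M)) * ζ j)‖ ^ (2 * r)) =
        mom (p ^ M) E r s' (fun x => w x * ee (((∑ j, α j * E j x : ℤ) : ℝ) /
          ((p ^ M' : ℕ) : ℝ))) := by
      intro s'
      unfold mom
      congr 1
      funext ζ
      rw [G_shift p l M M' E s' w hp hM α ζ]
    simp only [e2]
    exact h5

end Pool.Agent.VM.H4
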