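import Mathlib
import Pool.Agent.VM.Stmts
import Pool.Agent.Helper4_VM.Gpr

/-!
# LM0: the bilinear inequality from the linear one
-/

set_option autoImplicit false

namespace Pool.Agent.VM.H4

open Pool.Agent.VM

theorem tri_pos (k : ℕ) (hk : 1 ≤ k) : 0 < tri k := by
  unfold tri
  have : 2 ≤ k * (k + 1) := by nlinarith
  omega

theorem tri_mono {l k : ℕ} (h : l ≤ k) : tri l ≤ tri k := by
  unfold tri
  exact Nat.div_le_div_right (Nat.mul_le_mul h (by omega))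

theorem mom_nonneg (q : ℕ) {l : ℕ} (E : Fin l → ℤ → ℤ) (r : ℕ) (s : Finset ℤ) (w : ℤ → ℂ) :
    0 ≤ mom q E r s w := av_nonneg _ _ _ fun _ => by positivity

theorem Sq_nonneg (q : ℕ) {l : ℕ} (E : Fin l → ℤ → ℤ) (r m : ℕ) (s : Finset ℤ) (w : ℤ → ℂ) :
    0 ≤ Sq q E r m s w :=
  Finset.sum_nonneg fun _ _ => Real.rpow_nonneg (mom_nonneg _ _ _ _ _) _

theorem lm0 (p k : ℕ) (hp : p.Prime) (hk : 1 ≤ k) (res : ResStmt p k) (ho1 : Ho1Stmt) :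
    Lm0Stmt p k := by
  intro l n a b C₁ C₂ hl ha hb hC₁ hC₂ hD₁ hD₂ c c' _ s s' w w' hs hs'
  have hq : 0 < p ^ (k * n) := Nat.pow_pos hp.pos
  have hk0 : 0 < tri k := tri_pos k hk
  have hlk : tri l ≤ tri k := tri_mono hl.le
  have hsum : tri l + (tri k - tri l) = tri k := by omega
  have hK : (0 : ℝ) < (tri k : ℝ) := by exact_mod_cast hk0
  have r1 : ((tri k - tri l : ℕ) : ℝ) = (tri k : ℝ) - (tri l : ℝ) := Nat.cast_sub hlk
  have h := ho1 (p ^ (k * n)) k (fun ζ => ‖G (p ^ (k * n)) (mc 0 k) s w ζ‖ ^ 2)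
    (fun ζ => ‖G (p ^ (k * n)) (mc 0 k) s' w' ζ‖ ^ 2) (tri l) (tri k - tri l) hq (by omega)
    (fun ζ => by positivity) (fun ζ => by positivity)
  simp only [← pow_mul] at h
  rw [hsum, r1, add_sub_cancel] at h
  have m1 := res (n - a) a C₁ hC₁ hD₁ c s w hs
  have m2 := res (n - b) b C₂ hC₂ hD₂ c' s' w' hs'
  rw [Nat.sub_add_cancel ha] at m1
  rw [Nat.sub_add_cancel hb] at m2
  refine h.trans ?_
  set S₁ := Sq (p ^ (k * n)) (mc 0 k) (tri k) (p ^ n) s w with hS₁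
  set S₂ := Sq (p ^ (k * n)) (mc 0 k) (tri k) (p ^ n) s' w' with hS₂
  have hS₁0 : 0 ≤ S₁ := Sq_nonneg _ _ _ _ _ _
  have hS₂0 : 0 ≤ S₂ := Sq_nonneg _ _ _ _ _ _
  have e2 : (((tri k : ℝ) - (tri l : ℝ)) / (tri k : ℝ)) = 1 - (tri l : ℝ) / (tri k : ℝ) := by
    rw [sub_div, div_self hK.ne']
  have hle : (tri l : ℝ) ≤ (tri k : ℝ) := by exact_mod_cast hlk
  have f1 : (Av (p ^ (k * n)) k (fun ζ => ‖G (p ^ (k * n)) (mc 0 k) s w ζ‖ ^ (2 * tri k))) ^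
      ((tri l : ℝ) / (tri k : ℝ)) ≤ C₁ ^ ((tri l : ℝ) / (tri k : ℝ)) * S₁ ^ (tri l) := by
    calc _ ≤ (C₁ * S₁ ^ (tri k)) ^ ((tri l : ℝ) / (tri k : ℝ)) :=
          Real.rpow_le_rpow (mom_nonneg _ _ _ _ _) m1 (by positivity)
      _ = C₁ ^ ((tri l : ℝ) / (tri k : ℝ)) * (S₁ ^ (tri k)) ^ ((tri l : ℝ) / (tri k : ℝ)) :=
          Real.mul_rpow hC₁ (by positivity)
      _ = _ := by
          congr 1
          rw [← Real.rpow_natCast S₁ (tri k), ← Real.rpow_mul hS₁0, ← Real.rpow_natCast S₁ (tri l)]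
          congr 1
          field_simp
  have f2 : (Av (p ^ (k * n)) k (fun ζ => ‖G (p ^ (k * n)) (mc 0 k) s' w' ζ‖ ^ (2 * tri k))) ^
      (((tri k : ℝ) - (tri l : ℝ)) / (tri k : ℝ)) ≤
      C₂ ^ (1 - (tri l : ℝ) / (tri k : ℝ)) * S₂ ^ (tri k - tri l) := by
    have hnn : 0 ≤ ((tri k : ℝ) - (tri l : ℝ)) / (tri k : ℝ) :=
      div_nonneg (by linarith) hK.le
    calc _ ≤ (C₂ * S₂ ^ (tri k)) ^ (((tri k : ℝ) - (tri l : ℝ)) / (tri k : ℝ)) :=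
          Real.rpow_le_rpow (mom_nonneg _ _ _ _ _) m2 hnn
      _ = C₂ ^ (((tri k : ℝ) - (tri l : ℝ)) / (tri k : ℝ)) *
            (S₂ ^ (tri k)) ^ (((tri k : ℝ) - (tri l : ℝ)) / (tri k : ℝ)) :=
          Real.mul_rpow hC₂ (by positivity)
      _ = _ := by
          rw [e2]
          congr 1
          rw [← e2, ← Real.rpow_natCast S₂ (tri k), ← Real.rpow_mul hS₂0,
            ← Real.rpow_natCast S₂ (tri k - tri l), r1]
          congr 1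
          field_simp
  calc _ ≤ (C₁ ^ ((tri l : ℝ) / (tri k : ℝ)) * S₁ ^ (tri l)) *
        (C₂ ^ (1 - (tri l : ℝ) / (tri k : ℝ)) * S₂ ^ (tri k - tri l)) :=
        mul_le_mul f1 f2 (Real.rpow_nonneg (mom_nonneg _ _ _ _ _) _)
          (mul_nonneg (Real.rpow_nonneg hC₁ _) (by positivity))
    _ = _ := by ring

end Pool.Agent.VM.H4
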